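import Mathlib

/-!
The numerical inequalities behind the construction.
-/

set_option autoImplicit false

open Filter

namespace Pool.Agent.H21.FE

/-- the density at stage `n` -/
noncomputable def dens (c : ℝ) (n : ℕ) : ℝ :=
  Real.exp (-(c * n * (Real.log n - Real.sqrt (Real.log n))))

theorem dens_pos (c : ℝ) (n : ℕ) : 0 < dens c n := Real.exp_pos _

theorem log_dens (c : ℝ) (n : ℕ) :
    Real.log (dens c n) = -(c * n * (Real.log n - Real.sqrt (Real.log n))) := Real.log_exp _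

theorem sqrt_log_tendsto : Tendsto (fun n : ℕ => Real.sqrt (Real.log n)) atTop atTop :=
  Real.tendsto_sqrt_atTop.comp (Real.tendsto_log_atTop.comp tendsto_natCast_atTop_atTop)

theorem log_le_eventually (δ : ℝ) (hδ : 0 < δ) : ∀ᶠ n : ℕ in atTop, Real.log n ≤ δ * n := by
  have h1 := (Real.isLittleO_log_id_atTop.def hδ)
  have h2 := tendsto_natCast_atTop_atTop (R := ℝ) |>.eventually h1
  filter_upwards [h2, eventually_ge_atTop 1] with n hn h1
  have h3 : (1 : ℝ) ≤ n := by exact_mod_cast h1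
  have h4 : 0 ≤ Real.log n := Real.log_nonneg h3
  rw [Real.norm_of_nonneg h4, id, Real.norm_of_nonneg (by linarith)] at hn
  exact hn

theorem dens_le_one (c : ℝ) (hc : 0 ≤ c) (n : ℕ) (hn : 1 ≤ Real.sqrt (Real.log n)) :
    dens c n ≤ 1 := by
  unfold dens
  rw [Real.exp_le_one_iff]
  have h0 : 0 ≤ Real.log n := by
    by_contra hcon
    push Not at hcon
    rw [Real.sqrt_eq_zero_of_nonpos hcon.le] at hn
    linarith
  have h1 : Real.sqrt (Real.log n) ≤ Real.log n := by
    have h2 := Real.mul_self_sqrt h0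
    nlinarith
  have h2 : 0 ≤ c * n * (Real.log n - Real.sqrt (Real.log n)) := by
    apply mul_nonneg (by positivity)
    linarith
  linarith

/-- the size of the set -/
theorem size_ge (c : ℝ) (hc : 0 ≤ c) (hc1 : c < 1) : ∀ᶠ n : ℕ in atTop, ∀ a : ℕ,
    dens c n * (n : ℝ) ^ (n - 4) / 2 ≤ a → n ≤ a := by
  have h1 := sqrt_log_tendsto.eventually_ge_atTop 1
  have h2 : ∀ᶠ n : ℕ in atTop, 6 / (1 - c) ≤ (n : ℝ) :=
    tendsto_natCast_atTop_atTop.eventually_ge_atTop _
  filter_upwards [h1, h2, eventually_ge_atTop 5] with n h1 h2 h3 a ha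
  have hn0 : (0 : ℝ) < n := by positivity
  obtain ⟨s, hs⟩ : ∃ s, s = Real.sqrt (Real.log n) := ⟨_, rfl⟩
  rw [← hs] at h1
  have hl0 : 0 ≤ Real.log n := Real.log_nonneg (by
    have : (5 : ℝ) ≤ n := by exact_mod_cast h3
    linarith)
  have hsl : Real.log n = s * s := by
    rw [hs]
    exact (Real.mul_self_sqrt hl0).symm
  have hl1 : 1 ≤ Real.log n := by
    rw [hsl]
    nlinarith
  have h4 : Real.log n ≤ Real.log (dens c n * (n : ℝ) ^ (n - 4) / 2) := by
    rw [Real.log_div (by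
      have := dens_pos c n
      positivity) two_ne_zero, Real.log_mul (dens_pos c n).ne' (by positivity), Real.log_pow,
      log_dens, ← hs, Nat.cast_sub (by omega)]
    have h5 : Real.log 2 ≤ Real.log n :=
      Real.log_le_log two_pos (by
        have : (5 : ℝ) ≤ n := by exact_mod_cast h3
        linarith)
    have h6 : 6 ≤ (n : ℝ) * (1 - c) := by
      rwa [div_le_iff₀ (by linarith)] at h2
    have h7 : 0 ≤ c * n * s := by positivity
    have h8 : 6 * Real.log n ≤ (n : ℝ) * (1 - c) * Real.log n :=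
      mul_le_mul_of_nonneg_right h6 hl0
    push_cast
    nlinarith
  have h5 : (n : ℝ) ≤ dens c n * (n : ℝ) ^ (n - 4) / 2 := by
    have := dens_pos c n
    exact (Real.log_le_log_iff hn0 (by positivity)).mp h4
  exact_mod_cast h5.trans ha

/-- small doubling -/
theorem doubling (ε : ℝ) (hε : 0 < ε) : ∀ᶠ n : ℕ in atTop, ∀ a s : ℕ,
    dens (ε / (1 + ε)) n * (n : ℝ) ^ (n - 4) / 2 ≤ a → s ≤ (2 * n) ^ n →
      (s : ℝ) ≤ (a : ℝ) ^ (1 + ε) := by
  have h1 := sqrt_log_tendsto.eventually_ge_atTop (max 1 (2 * Real.log 2 / ε))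
  have h2 := log_le_eventually (ε / (10 * (1 + ε))) (by positivity)
  filter_upwards [h1, h2, eventually_ge_atTop 5] with n h1 h2 h3 a t ha ht
  have hn5 : (5 : ℝ) ≤ n := by exact_mod_cast h3
  have hn0 : (0 : ℝ) < n := by linarith
  obtain ⟨s, hs⟩ : ∃ s, s = Real.sqrt (Real.log n) := ⟨_, rfl⟩
  rw [← hs] at h1
  have hs1 : 1 ≤ s := (le_max_left _ _).trans h1
  have hs2 : 2 * Real.log 2 / ε ≤ s := (le_max_right _ _).trans h1
  have hl0 : 0 ≤ Real.log n := Real.log_nonneg (by linarith)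
  have hsl : Real.log n = s * s := by
    rw [hs]
    exact (Real.mul_self_sqrt hl0).symm
  have hbase : 0 < dens (ε / (1 + ε)) n * (n : ℝ) ^ (n - 4) / 2 := by
    have := dens_pos (ε / (1 + ε)) n
    positivity
  have ha0 : (0 : ℝ) < a := hbase.trans_le ha
  have h4 : Real.log (((2 * n : ℕ) : ℝ) ^ n) ≤ Real.log ((a : ℝ) ^ (1 + ε)) := by
    rw [Real.log_rpow ha0, Real.log_pow]
    have h5 : Real.log (dens (ε / (1 + ε)) n * (n : ℝ) ^ (n - 4) / 2) ≤ Real.log a :=
      Real.log_le_log hbase ha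
    refine le_trans ?_ (mul_le_mul_of_nonneg_left h5 (by linarith))
    rw [Real.log_div (by
      have := dens_pos (ε / (1 + ε)) n
      positivity) two_ne_zero, Real.log_mul (dens_pos _ n).ne' (by positivity), Real.log_pow,
      log_dens, ← hs, Nat.cast_sub (by omega)]
    push_cast
    rw [Real.log_mul two_ne_zero hn0.ne']
    have h6 : (1 + ε) * (-(ε / (1 + ε) * n * (Real.log n - s)) + ((n : ℝ) - 4) * Real.log n -
        Real.log 2) = n * Real.log n - 4 * (1 + ε) * Real.log n + ε * n * s -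
          (1 + ε) * Real.log 2 := by
      field_simp
      ring
    rw [h6]
    have hlog2 : Real.log 2 ≤ 1 := (Real.log_le_sub_one_of_pos two_pos).trans (by norm_num)
    have hlog20 : 0 < Real.log 2 := Real.log_pos one_lt_two
    have h7 : 2 * Real.log 2 ≤ ε * s := by
      rw [div_le_iff₀ hε] at hs2
      linarith
    have h8 : 10 * (1 + ε) * (s * s) ≤ ε * n := by
      rw [hsl] at h2
      have h9 : s * s * (10 * (1 + ε)) ≤ ε / (10 * (1 + ε)) * n * (10 * (1 + ε)) :=
        mul_le_mul_of_nonneg_right h2 (by positivity)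
      have h10 : ε / (10 * (1 + ε)) * n * (10 * (1 + ε)) = ε * n := by
        field_simp
      linarith
    have h9 : 10 * (1 + ε) * (s * s) * s ≤ ε * n * s :=
      mul_le_mul_of_nonneg_right h8 (by linarith)
    have h10 : (n : ℝ) * (2 * Real.log 2) ≤ n * (ε * s) := mul_le_mul_of_nonneg_left h7 hn0.le
    have h11 : (1 + ε) * Real.log 2 ≤ (1 + ε) * 1 := mul_le_mul_of_nonneg_left hlog2 (by linarith)
    have h12 : (1 + ε) * 1 ≤ (1 + ε) * (s * s) :=
      mul_le_mul_of_nonneg_left (by nlinarith) (by linarith)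
    have h13 : (1 + ε) * (s * s) ≤ (1 + ε) * (s * s) * s := by
      have : 0 ≤ (1 + ε) * (s * s) := by positivity
      nlinarith
    rw [hsl]
    nlinarith
  have h5 : (t : ℝ) ≤ ((2 * n : ℕ) : ℝ) ^ n := by exact_mod_cast ht
  refine h5.trans ?_
  have h6 : (0 : ℝ) < ((2 * n : ℕ) : ℝ) := by
    push_cast
    linarith
  exact (Real.log_le_log_iff (by positivity) (by positivity)).mp h4

/-- the condition on the number of bad sets -/
theorem cond (c : ℝ) (hc : 0 < c) (hc1 : c < 1) (g h m : ℕ) (hm : (g : ℝ) / c - 1 ≤ m) :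
    ∀ᶠ n : ℕ in atTop, 2 * ((n : ℝ) + 1) * ((n : ℝ) ^ (n - 4) + 1) ^ g *
      ((n : ℝ) ^ h) ^ (m + 1) * dens c n ^ m ≤ (n : ℝ) ^ (n - 4) := by
  obtain ⟨C, hC⟩ : ∃ C : ℝ, C = 6 + h * (m + 1) := ⟨_, rfl⟩
  have h1 := sqrt_log_tendsto.eventually_ge_atTop (max 1 (2 * g / (1 - c)))
  have h2 : ∀ᶠ n : ℕ in atTop, 2 * C / (1 - c) ≤ (n : ℝ) :=
    tendsto_natCast_atTop_atTop.eventually_ge_atTop _
  filter_upwards [h1, h2, eventually_ge_atTop 5] with n h1 h2 h3
  have hn5 : (5 : ℝ) ≤ n := by exact_mod_cast h3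
  have hn0 : (0 : ℝ) < n := by linarith
  have hc2 : 0 < 1 - c := by linarith
  obtain ⟨s, hs⟩ : ∃ s, s = Real.sqrt (Real.log n) := ⟨_, rfl⟩
  rw [← hs] at h1
  have hs1 : 1 ≤ s := (le_max_left _ _).trans h1
  have hs2 : 2 * g / (1 - c) ≤ s := (le_max_right _ _).trans h1
  have hl0 : 0 ≤ Real.log n := Real.log_nonneg (by linarith)
  have hsl : Real.log n = s * s := by
    rw [hs]
    exact (Real.mul_self_sqrt hl0).symm
  have hd := dens_pos c n
  have hN1 : (1 : ℝ) ≤ (n : ℝ) ^ (n - 4) := one_le_pow₀ (by linarith)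
  have h4 : 2 * ((n : ℝ) + 1) ≤ (n : ℝ) ^ 2 := by nlinarith
  have h5 : (n : ℝ) ^ (n - 4) + 1 ≤ (n : ℝ) ^ (n - 3) := by
    have h6 : n - 3 = n - 4 + 1 := by omega
    rw [h6, pow_succ]
    nlinarith
  have h6 : 2 * ((n : ℝ) + 1) * ((n : ℝ) ^ (n - 4) + 1) ^ g * ((n : ℝ) ^ h) ^ (m + 1) *
      dens c n ^ m ≤ (n : ℝ) ^ 2 * ((n : ℝ) ^ (n - 3)) ^ g * ((n : ℝ) ^ h) ^ (m + 1) *
      dens c n ^ m := by
    gcongr
  refine h6.trans ?_
  rw [← Real.log_le_log_iff (by positivity) (by positivity), Real.log_mul (by positivity)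
    (by positivity), Real.log_mul (by positivity) (by positivity), Real.log_mul (by positivity)
    (by positivity), Real.log_pow, Real.log_pow, Real.log_pow, Real.log_pow, Real.log_pow,
    Real.log_pow, Real.log_pow, log_dens, ← hs, Nat.cast_sub (by omega), Nat.cast_sub (by omega),
    hsl]
  push_cast
  -- the main term
  have h7 : (g : ℝ) - c ≤ c * m := by
    have h8 := mul_le_mul_of_nonneg_left hm hc.le
    have h9 : c * ((g : ℝ) / c - 1) = g - c := by
      field_simp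
    linarith
  have h8 : 0 ≤ (n : ℝ) * (s * s - s) := mul_nonneg hn0.le (by nlinarith)
  have h9 : ((g : ℝ) - c) * ((n : ℝ) * (s * s - s)) ≤ c * m * ((n : ℝ) * (s * s - s)) :=
    mul_le_mul_of_nonneg_right h7 h8
  have h10 : 2 * C ≤ n * (1 - c) := by rwa [div_le_iff₀ hc2] at h2
  have h11 : 2 * g ≤ s * (1 - c) := by rwa [div_le_iff₀ hc2] at hs2
  have h12 : 2 * C * (s * s) ≤ n * (1 - c) * (s * s) :=
    mul_le_mul_of_nonneg_right h10 (by positivity)
  have h13 : 2 * g * (n * s) ≤ s * (1 - c) * (n * s) :=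
    mul_le_mul_of_nonneg_right h11 (by positivity)
  have h14 : 0 ≤ 3 * (g : ℝ) * (s * s) := by positivity
  have h15 : 0 ≤ c * n * s := by positivity
  rw [hC] at h12
  nlinarith

end Pool.Agent.H21.FE
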