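import Pool.Agent.H54.Bezout

/-!
The number of subsets of a planar set that lie on a curve of bounded degree.
-/

set_option autoImplicit false

open MvPolynomial

namespace Pool.Agent.H21.FE

/-- A finite set of functionals with nonzero common kernel has a small subset with the same common
kernel. -/
theorem exists_determining {V : Type*} [AddCommGroup V] [Module ℝ V] [Module.Finite ℝ V]
    {β : Type*} [DecidableEq β] (φ : β → V →ₗ[ℝ] ℝ) (X : Finset β) (v₀ : V) (hv₀ : v₀ ≠ 0)
    (hX : ∀ x ∈ X, φ x v₀ = 0) :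
    ∃ Y ⊆ X, Y.card < Module.finrank ℝ V ∧
      ∀ v, (∀ y ∈ Y, φ y v = 0) → ∀ x ∈ X, φ x v = 0 := by
  classical
  obtain ⟨κ, a, ha, hspan, hli⟩ := exists_linearIndependent' ℝ (fun x : X => φ x)
  have hfin : Finite κ := hli.finite
  have := Fintype.ofFinite κ
  obtain ⟨K, hK⟩ : ∃ K : Submodule ℝ (Module.Dual ℝ V),
      K = LinearMap.ker (Module.Dual.eval ℝ V v₀) := ⟨_, rfl⟩
  have hmem : ∀ i, φ (a i) ∈ K := by
    intro i
    rw [hK, LinearMap.mem_ker, Module.Dual.eval_apply]
    exact hX _ (a i).2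
  have hKtop : K ≠ ⊤ := by
    intro h
    apply hv₀
    rw [← Module.forall_dual_apply_eq_zero_iff ℝ v₀]
    intro f
    have h1 : f ∈ K := by rw [h]; exact Submodule.mem_top
    rwa [hK, LinearMap.mem_ker, Module.Dual.eval_apply] at h1
  have hli2 : LinearIndependent ℝ (fun i => (⟨φ (a i), hmem i⟩ : K)) := by
    apply LinearIndependent.of_comp K.subtype
    exact hli
  refine ⟨Finset.univ.image fun i => (a i).1, ?_, ?_, ?_⟩
  · intro y hy
    obtain ⟨i, _, rfl⟩ := Finset.mem_image.mp hy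
    exact (a i).2
  · refine lt_of_le_of_lt Finset.card_image_le ?_
    rw [Finset.card_univ]
    refine lt_of_le_of_lt hli2.fintype_card_le_finrank ?_
    rw [← Subspace.dual_finrank_eq]
    exact Submodule.finrank_lt hKtop
  · intro v hv x hx
    have h1 : φ x ∈ Submodule.span ℝ (Set.range ((fun x : X => φ x) ∘ a)) := by
      rw [hspan]
      exact Submodule.subset_span ⟨⟨x, hx⟩, rfl⟩
    have h2 : Submodule.span ℝ (Set.range ((fun x : X => φ x) ∘ a)) ≤
        LinearMap.ker (Module.Dual.eval ℝ V v) := by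
      rw [Submodule.span_le]
      rintro _ ⟨i, rfl⟩
      rw [SetLike.mem_coe, LinearMap.mem_ker, Module.Dual.eval_apply]
      exact hv _ (Finset.mem_image_of_mem _ (Finset.mem_univ i))
    have h3 := h2 h1
    rw [LinearMap.mem_ker, Module.Dual.eval_apply] at h3
    exact h3

/-- the number of small subsets -/
theorem card_small_subsets {β : Type*} [DecidableEq β] (B : Finset β) (h : ℕ) :
    (B.powerset.filter fun Y => Y.card ≤ h).card ≤ (B.card + 1) ^ h := by
  have h1 : (B.powerset.filter fun Y => Y.card ≤ h) ⊆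
      (Finset.range (h + 1)).biUnion fun j => Finset.powersetCard j B := by
    intro Y hY
    rw [Finset.mem_filter, Finset.mem_powerset] at hY
    rw [Finset.mem_biUnion]
    exact ⟨Y.card, Finset.mem_range.mpr (Nat.lt_succ_of_le hY.2),
      Finset.mem_powersetCard.mpr ⟨hY.1, rfl⟩⟩
  refine (Finset.card_le_card h1).trans (Finset.card_biUnion_le.trans ?_)
  rw [add_pow]
  refine Finset.sum_le_sum fun j hj => ?_
  rw [Finset.card_powersetCard, one_pow, mul_one]
  have h2 : 1 ≤ h.choose j := Nat.choose_pos (Nat.lt_succ_iff.mp (Finset.mem_range.mp hj))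
  exact (Nat.choose_le_pow _ _).trans (Nat.le_mul_of_pos_right _ h2)

/-- evaluation at a point as a functional on polynomials of bounded degree -/
noncomputable def ev (d : ℕ) (p : ℝ × ℝ) : restrictTotalDegree (Fin 2) ℝ d →ₗ[ℝ] ℝ :=
  (MvPolynomial.aeval ![p.1, p.2] : MvPolynomial (Fin 2) ℝ →ₐ[ℝ] ℝ).toLinearMap.comp
    (Submodule.subtype _)

theorem ev_apply (d : ℕ) (p : ℝ × ℝ) (P : restrictTotalDegree (Fin 2) ℝ d) :
    ev d p P = eval ![p.1, p.2] P.1 := by
  unfold ev
  simp [MvPolynomial.aeval_eq_eval]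

/-- The subsets of `m + 1` points of `B` that lie on a curve of degree at most `d`. -/
noncomputable def bad (B : Finset (ℝ × ℝ)) (d m : ℕ) : Finset (Finset (ℝ × ℝ)) :=
  open Classical in
  (Finset.powersetCard (m + 1) B).filter fun X =>
    ∃ P : MvPolynomial (Fin 2) ℝ, P ≠ 0 ∧ P.totalDegree ≤ d ∧ ∀ p ∈ X, eval ![p.1, p.2] P = 0

theorem card_bad_le (B : Finset (ℝ × ℝ)) (d m T : ℕ)
    (hT : ∀ P : MvPolynomial (Fin 2) ℝ, P ≠ 0 → P.totalDegree ≤ d → ∀ Z ⊆ B,
      (∀ p ∈ Z, eval ![p.1, p.2] P = 0) → Z.card ≤ T) :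
    (bad B d m).card ≤ (B.card + 1) ^ (d * (d + 3) / 2) * T ^ (m + 1) := by
  classical
  obtain ⟨h, hh⟩ : ∃ h, h = d * (d + 3) / 2 := ⟨_, rfl⟩
  have hV : Module.finrank ℝ (restrictTotalDegree (Fin 2) ℝ d) = h + 1 := by
    rw [H54.finrank_restrictTotalDegree ℝ d, hh]
    have h1 : (d + 1) * (d + 2) = d * (d + 3) + 2 := by ring
    rw [h1]
    omega
  have hVfin : Module.Finite ℝ (restrictTotalDegree (Fin 2) ℝ d) := by
    apply Module.finite_of_finrank_pos
    rw [hV]
    exact Nat.succ_pos h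
  rw [← hh]
  let cl : Finset (ℝ × ℝ) → Finset (ℝ × ℝ) := fun Y => B.filter fun p =>
    ∀ v : restrictTotalDegree (Fin 2) ℝ d, (∀ y ∈ Y, ev d y v = 0) → ev d p v = 0
  let U : Finset (Finset (ℝ × ℝ)) := (B.powerset.filter fun Y => Y.card ≤ h).filter fun Y =>
    (cl Y).card ≤ T
  have hsub : bad B d m ⊆ U.biUnion fun Y => Finset.powersetCard (m + 1) (cl Y) := by
    intro X hX
    unfold bad at hX
    rw [Finset.mem_filter, Finset.mem_powersetCard] at hX
    obtain ⟨⟨hXB, hXc⟩, P, hP0, hPd, hPX⟩ := hX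
    obtain ⟨Y, hYX, hYc, hY⟩ := exists_determining (ev d) X
      ⟨P, (mem_restrictTotalDegree _ _ _).mpr hPd⟩ (fun h0 => hP0 (congrArg Subtype.val h0))
      (fun x hx => by
        rw [ev_apply]
        exact hPX x hx)
    rw [hV, Nat.lt_succ_iff] at hYc
    rw [Finset.mem_biUnion]
    refine ⟨Y, ?_, ?_⟩
    · rw [Finset.mem_filter, Finset.mem_filter, Finset.mem_powerset]
      refine ⟨⟨hYX.trans hXB, hYc⟩, ?_⟩
      apply hT P hP0 hPd (cl Y) (Finset.filter_subset _ _)
      intro p hp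
      have h1 := (Finset.mem_filter.mp hp).2 ⟨P, (mem_restrictTotalDegree _ _ _).mpr hPd⟩
        (fun y hy => by
          rw [ev_apply]
          exact hPX y (hYX hy))
      rwa [ev_apply] at h1
    · rw [Finset.mem_powersetCard]
      refine ⟨?_, hXc⟩
      intro x hx
      rw [Finset.mem_filter]
      exact ⟨hXB hx, fun v hv => hY v hv x hx⟩
  refine (Finset.card_le_card hsub).trans (Finset.card_biUnion_le.trans ?_)
  have h1 : ∀ Y ∈ U, (Finset.powersetCard (m + 1) (cl Y)).card ≤ T ^ (m + 1) := by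
    intro Y hY
    rw [Finset.card_powersetCard]
    exact (Nat.choose_le_pow _ _).trans (Nat.pow_le_pow_left (Finset.mem_filter.mp hY).2 _)
  refine (Finset.sum_le_card_nsmul _ _ _ h1).trans ?_
  rw [smul_eq_mul]
  apply Nat.mul_le_mul_right
  exact (Finset.card_le_card (Finset.filter_subset _ _)).trans (card_small_subsets B h)

end Pool.Agent.H21.FE
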