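import Mathlib

/-!
Random deletion: a finite set in which few small subsets are bad contains a large subset without
bad subsets.
-/

set_option autoImplicit false

namespace Pool.Agent.H21.FE

variable {α : Type*} [DecidableEq α]

/-- the weight of a subset -/
noncomputable def wt (B : Finset α) (p : ℝ) (S : Finset α) : ℝ :=
  p ^ S.card * (1 - p) ^ (B.card - S.card)

omit [DecidableEq α] in
theorem sum_wt (B : Finset α) (p : ℝ) : ∑ S ∈ B.powerset, wt B p S = 1 := by
  have h := Finset.sum_pow_mul_eq_add_pow p (1 - p) B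
  unfold wt
  rw [h]
  simp

/-- the probability that the random subset contains `X` -/
theorem sum_wt_superset (B X : Finset α) (hX : X ⊆ B) (p : ℝ) :
    ∑ S ∈ B.powerset.filter (fun S => X ⊆ S), wt B p S = p ^ X.card := by
  have h1 : ∑ S ∈ B.powerset.filter (fun S => X ⊆ S), wt B p S =
      ∑ S ∈ (B \ X).powerset, p ^ X.card * wt (B \ X) p S := by
    refine Finset.sum_bij' (fun S _ => S \ X) (fun S _ => S ∪ X) ?_ ?_ ?_ ?_ ?_
    · intro S hS
      rw [Finset.mem_filter, Finset.mem_powerset] at hS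
      rw [Finset.mem_powerset]
      exact Finset.sdiff_subset_sdiff hS.1 (Finset.Subset.refl X)
    · intro S hS
      rw [Finset.mem_powerset] at hS
      rw [Finset.mem_filter, Finset.mem_powerset]
      refine ⟨Finset.union_subset (hS.trans Finset.sdiff_subset) hX, Finset.subset_union_right⟩
    · intro S hS
      rw [Finset.mem_filter] at hS
      exact Finset.sdiff_union_of_subset hS.2
    · intro S hS
      rw [Finset.mem_powerset] at hS
      show (S ∪ X) \ X = S
      rw [Finset.union_sdiff_right, Finset.sdiff_eq_self_iff_disjoint]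
      exact (Finset.disjoint_of_subset_left hS Finset.sdiff_disjoint)
    · intro S hS
      rw [Finset.mem_filter, Finset.mem_powerset] at hS
      unfold wt
      have h2 : (S \ X).card + X.card = S.card := Finset.card_sdiff_add_card_eq_card hS.2
      have h3 : (B \ X).card + X.card = B.card := Finset.card_sdiff_add_card_eq_card hX
      have h4 : (B \ X).card - (S \ X).card = B.card - S.card := by omega
      rw [h4, ← h2, pow_add]
      ring
  rw [h1, ← Finset.mul_sum, sum_wt, mul_one]

omit [DecidableEq α] in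
theorem wt_nonneg (B S : Finset α) (p : ℝ) (h0 : 0 ≤ p) (h1 : p ≤ 1) : 0 ≤ wt B p S :=
  mul_nonneg (pow_nonneg h0 _) (pow_nonneg (by linarith) _)

/-- Random deletion. -/
theorem exists_subset {ι : Type*} [DecidableEq ι] (B : Finset α) (p : ℝ) (h0 : 0 ≤ p) (h1 : p ≤ 1)
    (I : Finset ι) (F : ι → Finset (Finset α)) (m : ι → ℕ)
    (hF : ∀ i ∈ I, ∀ X ∈ F i, X ⊆ B ∧ X.card = m i + 1)
    (hsum : ∑ i ∈ I, ((F i).card : ℝ) * p ^ (m i + 1) ≤ p * B.card / 2) :
    ∃ S ⊆ B, p * B.card / 2 ≤ S.card ∧ ∀ i ∈ I, ∀ X ∈ F i, ¬ X ⊆ S := by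
  classical
  obtain ⟨f, hf⟩ : ∃ f : Finset α → ℝ, f = fun S => (S.card : ℝ) -
      ∑ i ∈ I, (((F i).filter fun X => X ⊆ S).card : ℝ) := ⟨_, rfl⟩
  have hE1 : ∑ S ∈ B.powerset, wt B p S * (S.card : ℝ) = p * B.card := by
    have h2 : ∀ S ∈ B.powerset, wt B p S * (S.card : ℝ) =
        ∑ x ∈ B, if x ∈ S then wt B p S else 0 := by
      intro S hS
      rw [Finset.mem_powerset] at hS
      rw [← Finset.sum_filter, Finset.filter_mem_eq_inter, Finset.inter_eq_right.mpr hS,
        Finset.sum_const, nsmul_eq_mul, mul_comm]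
    rw [Finset.sum_congr rfl h2, Finset.sum_comm]
    have h3 : ∀ x ∈ B, ∑ S ∈ B.powerset, (if x ∈ S then wt B p S else 0) = p := by
      intro x hx
      have h4 := sum_wt_superset B {x} (Finset.singleton_subset_iff.mpr hx) p
      simp only [Finset.singleton_subset_iff, Finset.card_singleton, pow_one] at h4
      rw [← Finset.sum_filter]
      exact h4
    rw [Finset.sum_congr rfl h3, Finset.sum_const, nsmul_eq_mul, mul_comm]
  have hE2 : ∀ i ∈ I, ∑ S ∈ B.powerset, wt B p S * (((F i).filter fun X => X ⊆ S).card : ℝ) =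
      ((F i).card : ℝ) * p ^ (m i + 1) := by
    intro i hi
    have h2 : ∀ S ∈ B.powerset, wt B p S * (((F i).filter fun X => X ⊆ S).card : ℝ) =
        ∑ X ∈ F i, if X ⊆ S then wt B p S else 0 := by
      intro S _
      rw [← Finset.sum_filter, Finset.sum_const, nsmul_eq_mul, mul_comm]
    rw [Finset.sum_congr rfl h2, Finset.sum_comm]
    have h3 : ∀ X ∈ F i, ∑ S ∈ B.powerset, (if X ⊆ S then wt B p S else 0) = p ^ (m i + 1) := by
      intro X hX
      rw [← Finset.sum_filter, sum_wt_superset B X (hF i hi X hX).1, (hF i hi X hX).2]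
    rw [Finset.sum_congr rfl h3, Finset.sum_const, nsmul_eq_mul]
  have hE : p * B.card / 2 ≤ ∑ S ∈ B.powerset, wt B p S * f S := by
    have h2 : ∑ S ∈ B.powerset, wt B p S * f S = p * B.card -
        ∑ i ∈ I, ((F i).card : ℝ) * p ^ (m i + 1) := by
      rw [hf]
      simp only [mul_sub, Finset.mul_sum, Finset.sum_sub_distrib]
      rw [hE1, Finset.sum_comm, Finset.sum_congr rfl hE2]
    rw [h2]
    linarith
  obtain ⟨S, hS, hSf⟩ : ∃ S ∈ B.powerset, p * B.card / 2 ≤ f S := by
    by_contra hcon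
    push Not at hcon
    obtain ⟨S0, hS0, hS0w⟩ : ∃ S ∈ B.powerset, 0 < wt B p S := by
      by_contra hcon2
      push Not at hcon2
      have h2 := Finset.sum_nonpos hcon2
      rw [sum_wt] at h2
      linarith
    have h3 : 0 < ∑ S ∈ B.powerset, wt B p S * (p * B.card / 2 - f S) := by
      apply Finset.sum_pos'
      · intro S hS
        exact mul_nonneg (wt_nonneg B S p h0 h1) (by linarith [hcon S hS])
      · exact ⟨S0, hS0, mul_pos hS0w (by linarith [hcon S0 hS0])⟩
    simp only [mul_sub, Finset.sum_sub_distrib] at h3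
    rw [← Finset.sum_mul, sum_wt, one_mul] at h3
    linarith
  rw [Finset.mem_powerset] at hS
  obtain ⟨e, he⟩ : ∃ e : Finset α → Finset α, ∀ X, (e X).card ≤ 1 ∧
      (X.Nonempty → ∃ x ∈ X, x ∈ e X) := by
    refine ⟨fun X => if h : X.Nonempty then {h.choose} else ∅, fun X => ?_⟩
    by_cases h : X.Nonempty
    · simp only [h, dite_true]
      exact ⟨by simp, fun _ => ⟨_, h.choose_spec, by simp⟩⟩
    · simp [h]
  obtain ⟨D, hD⟩ : ∃ D, D = I.biUnion fun i => ((F i).filter fun X => X ⊆ S).biUnion e :=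
    ⟨_, rfl⟩
  have hDcard : (D.card : ℝ) ≤ ∑ i ∈ I, (((F i).filter fun X => X ⊆ S).card : ℝ) := by
    rw [hD]
    have h2 : (I.biUnion fun i => ((F i).filter fun X => X ⊆ S).biUnion e).card ≤
        ∑ i ∈ I, ((F i).filter fun X => X ⊆ S).card := by
      refine Finset.card_biUnion_le.trans (Finset.sum_le_sum fun i _ => ?_)
      refine Finset.card_biUnion_le.trans ?_
      refine (Finset.sum_le_card_nsmul _ _ 1 fun X _ => (he X).1).trans ?_
      simp
    exact_mod_cast h2
  refine ⟨S \ D, Finset.sdiff_subset.trans hS, ?_, ?_⟩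
  · have h2 : (S.card : ℝ) ≤ ((S \ D).card : ℝ) + D.card := by
      have h3 := Finset.card_le_card_sdiff_add_card (s := S) (t := D)
      exact_mod_cast h3
    rw [hf] at hSf
    simp only at hSf
    linarith
  · intro i hi X hX hXS
    have h1 : X.Nonempty := by
      rw [← Finset.card_pos, (hF i hi X hX).2]
      omega
    obtain ⟨x, hxX, hxe⟩ := (he X).2 h1
    have h2 : x ∈ D := by
      rw [hD, Finset.mem_biUnion]
      refine ⟨i, hi, Finset.mem_biUnion.mpr ⟨X, ?_, hxe⟩⟩
      rw [Finset.mem_filter]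
      exact ⟨hX, hXS.trans Finset.sdiff_subset⟩
    exact (Finset.mem_sdiff.mp (hXS hxX)).2 h2

end Pool.Agent.H21.FE
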