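import Pool.Agent.H21.FE.Del
import Pool.Agent.H21.FE.Count
import Pool.Agent.H54.Build

/-!
One finite set of the construction.
-/

set_option autoImplicit false

open MvPolynomial
open scoped Pointwise

namespace Pool.Agent.H21.FE

open Pool.Agent.H54 (zeroSet)

theorem stage (n : ℕ) (hn : 5 ≤ n) (p : ℝ) (h0 : 0 ≤ p) (h1 : p ≤ 1) (m : ℕ → ℕ) :
    ∃ A : Finset (ℝ × ℝ), p * (n : ℝ) ^ (n - 4) / 2 ≤ A.card ∧ (A + A).card ≤ (2 * n) ^ n ∧
      ∀ d ≤ n, 2 * ((n : ℝ) + 1) * ((n : ℝ) ^ (n - 4) + 1) ^ (d * (d + 3) / 2) *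
          ((n : ℝ) ^ ((d + 1) * (d + 2) / 2)) ^ (m d + 1) * p ^ m d ≤ (n : ℝ) ^ (n - 4) →
        ∀ P : MvPolynomial (Fin 2) ℝ, P ≠ 0 → P.totalDegree ≤ d →
          {q : ℝ × ℝ | q ∈ A ∧ q ∈ zeroSet P}.ncard ≤ m d := by
  classical
  obtain ⟨B', hB1, hB2, _, hB4⟩ := H54.exists_set n n (by omega)
  have hN : n ^ (n - 4) ≤ B'.card := by
    have h2 : n * n ^ 2 + 1 ≤ n ^ 4 := by
      have : 1 ≤ n ^ 3 := Nat.one_le_pow _ _ (by omega)
      calc n * n ^ 2 + 1 ≤ n ^ 3 + n ^ 3 := by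
            have : n * n ^ 2 = n ^ 3 := by ring
            omega
        _ = 2 * n ^ 3 := by ring
        _ ≤ n * n ^ 3 := Nat.mul_le_mul_right _ (by omega)
        _ = n ^ 4 := by ring
    have h3 : n ^ (n - 4) * n ^ 4 ≤ B'.card * n ^ 4 := by
      rw [← pow_add, Nat.sub_add_cancel (by omega)]
      exact hB1.trans (Nat.mul_le_mul_left _ h2)
    exact Nat.le_of_mul_le_mul_right h3 (by positivity)
  have hnN : n ≤ n ^ (n - 4) := Nat.le_self_pow (by omega) n
  obtain ⟨B, hBB', hBcard⟩ := Finset.exists_subset_card_eq hN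
  let cond : ℕ → Prop := fun d =>
    2 * ((n : ℝ) + 1) * ((n : ℝ) ^ (n - 4) + 1) ^ (d * (d + 3) / 2) *
      ((n : ℝ) ^ ((d + 1) * (d + 2) / 2)) ^ (m d + 1) * p ^ m d ≤ (n : ℝ) ^ (n - 4)
  let I : Finset ℕ := (Finset.range (n + 1)).filter cond
  have hT : ∀ d ≤ n, ∀ P : MvPolynomial (Fin 2) ℝ, P ≠ 0 → P.totalDegree ≤ d → ∀ Z ⊆ B,
      (∀ q ∈ Z, eval ![q.1, q.2] P = 0) → Z.card ≤ n ^ ((d + 1) * (d + 2) / 2) := by
    intro d hd P hP0 hPd Z hZB hZ
    refine le_trans ?_ (hB4 d (hd.trans (hnN.trans hN)) P hP0 hPd)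
    rw [← Set.ncard_coe_finset]
    apply Set.ncard_le_ncard
    · intro q hq
      exact ⟨hBB' (hZB hq), hZ q hq⟩
    · exact B'.finite_toSet.subset fun q hq => hq.1
  have hsum : ∑ d ∈ I, ((bad B d (m d)).card : ℝ) * p ^ (m d + 1) ≤ p * B.card / 2 := by
    have h2 : ∀ d ∈ I, ((bad B d (m d)).card : ℝ) * p ^ (m d + 1) ≤
        p * (B.card / (2 * ((n : ℝ) + 1))) := by
      intro d hd
      rw [Finset.mem_filter, Finset.mem_range] at hd
      have h3 : ((bad B d (m d)).card : ℝ) ≤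
          ((n : ℝ) ^ (n - 4) + 1) ^ (d * (d + 3) / 2) *
            ((n : ℝ) ^ ((d + 1) * (d + 2) / 2)) ^ (m d + 1) := by
        have h4 := card_bad_le B d (m d) _ (hT d (by omega))
        rw [hBcard] at h4
        exact_mod_cast h4
      have h4 : 2 * ((n : ℝ) + 1) * ((n : ℝ) ^ (n - 4) + 1) ^ (d * (d + 3) / 2) *
          ((n : ℝ) ^ ((d + 1) * (d + 2) / 2)) ^ (m d + 1) * p ^ m d ≤ (n : ℝ) ^ (n - 4) := hd.2
      have h5 : (B.card : ℝ) = (n : ℝ) ^ (n - 4) := by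
        rw [hBcard]
        push_cast
        ring
      have h6 : 0 < 2 * ((n : ℝ) + 1) := by positivity
      rw [h5, pow_succ, mul_comm p, ← mul_assoc]
      apply mul_le_mul_of_nonneg_right _ h0
      rw [le_div_iff₀ h6]
      calc ((bad B d (m d)).card : ℝ) * p ^ m d * (2 * ((n : ℝ) + 1))
          ≤ (((n : ℝ) ^ (n - 4) + 1) ^ (d * (d + 3) / 2) *
            ((n : ℝ) ^ ((d + 1) * (d + 2) / 2)) ^ (m d + 1)) * p ^ m d * (2 * ((n : ℝ) + 1)) := by
            apply mul_le_mul_of_nonneg_right _ h6.le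
            exact mul_le_mul_of_nonneg_right h3 (pow_nonneg h0 _)
        _ = _ := by ring
        _ ≤ _ := h4
    refine (Finset.sum_le_card_nsmul _ _ _ h2).trans ?_
    rw [nsmul_eq_mul]
    have h3 : (I.card : ℝ) ≤ (n : ℝ) + 1 := by
      have h4 : I.card ≤ n + 1 := (Finset.card_filter_le _ _).trans (by simp)
      exact_mod_cast h4
    have h4 : 0 ≤ p * ((B.card : ℝ) / (2 * ((n : ℝ) + 1))) := by positivity
    refine (mul_le_mul_of_nonneg_right h3 h4).trans (le_of_eq ?_)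
    have h5 : (n : ℝ) + 1 ≠ 0 := by positivity
    field_simp
  obtain ⟨A, hAB, hAcard, hA⟩ := exists_subset B p h0 h1 I (fun d => bad B d (m d)) m
    (by
      intro d _ X hX
      unfold bad at hX
      rw [Finset.mem_filter, Finset.mem_powersetCard] at hX
      exact hX.1) hsum
  refine ⟨A, ?_, ?_, ?_⟩
  · rw [hBcard] at hAcard
    push_cast at hAcard
    exact hAcard
  · exact (Finset.card_le_card (Finset.add_subset_add (hAB.trans hBB') (hAB.trans hBB'))).trans hB2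
  · intro d hd hcond P hP0 hPd
    have h2 : {q : ℝ × ℝ | q ∈ A ∧ q ∈ zeroSet P} =
        (A.filter fun q => eval ![q.1, q.2] P = 0 : Finset _) := by
      ext q
      simp only [Finset.coe_filter, Set.mem_ofPred_eq]
      exact Iff.rfl
    rw [h2, Set.ncard_coe_finset]
    by_contra hcon
    push Not at hcon
    obtain ⟨X, hX1, hX2⟩ := Finset.exists_subset_card_eq (Nat.succ_le_of_lt hcon)
    apply hA d (Finset.mem_filter.mpr ⟨Finset.mem_range.mpr (by omega), hcond⟩) X _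
      (hX1.trans (Finset.filter_subset _ _))
    unfold bad
    rw [Finset.mem_filter, Finset.mem_powersetCard]
    refine ⟨⟨hX1.trans ((Finset.filter_subset _ _).trans hAB), hX2⟩, P, hP0, hPd, fun q hq => ?_⟩
    exact (Finset.mem_filter.mp (hX1 hq)).2

end Pool.Agent.H21.FE
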